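import Pool.Agent.X188.CPTools

/-!
# MP_a92470_an: a kernel with a hereditary minimum certificate is a complete Pick kernel

The notions of kernel and of complete Pick pair are those of the starting file
`Pool.Agent.Results.MP_e3a8c8_an.ShimorinCertificates` (`Kernel`, `IsCPPair`); a kernel `s` is a
complete Pick kernel if `(s, s)` is a complete Pick pair.
-/

open scoped InnerProductSpace ComplexOrder ComplexConjugate
open Matrix

namespace Pool.Agent.Results.MP_a92470_an.HereditaryMinimum

open Pool.Agent.Results.MP_e3a8c8_an.ShimorinCertificates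

universe u

variable {X : Type u}

/-- `s` is a complete Pick kernel: `(s, s)` is a complete Pick pair. -/
def IsCP (s : Kernel X) : Prop := IsCPPair s s

/-- `s` is a CP kernel with `k = (1 - h) s` for some kernel `h`. -/
def IsCertificate (k s : Kernel X) : Prop :=
  IsCP s ∧ ∃ h : Kernel X, ∀ x y, k.fn x y = (1 - h.fn x y) * s.fn x y

/-- The quotient `t / s` is a kernel: some kernel `q` satisfies `t = q s` wherever `s ≠ 0`. -/
def QuotientIsKernel (t s : Kernel X) : Prop :=
  ∃ q : Kernel X, ∀ x y, s.fn x y ≠ 0 → t.fn x y = q.fn x y * s.fn x y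

/-- `s` is minimal among the certificates of `k` over `X`. -/
def IsMinimum (k s : Kernel X) : Prop :=
  ∀ t : Kernel X, IsCertificate k t → QuotientIsKernel t s

/-- Restriction of a kernel to a subset. -/
def restrict (k : Kernel X) (X' : Set X) : Kernel X' :=
  ⟨k.fn.submatrix Subtype.val Subtype.val, k.psd.submatrix _⟩

lemma isCertificate_self_of_two {Y : Type u} (k : Kernel Y) (a b : Y)
    (hY : ∀ y, y = a ∨ y = b) : IsCertificate k k := by
  refine ⟨X188.CP.cp_two k a b hY, ⟨0, Matrix.PosSemidef.zero⟩, fun x y => ?_⟩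
  simp

/-- the key two-point computation -/
lemma two_point {h q : Kernel X} {x y : X} (hxx : q.fn x x = 1 - h.fn x x)
    (hyy : q.fn y y = 1 - h.fn y y) (hxy : q.fn x y = 1 - h.fn x y) :
    h.fn x x = h.fn x y ∧ h.fn y y = h.fn x y ∧ (h.fn x x).re ≤ 1 := by
  have h1 := X188.CP.minor_le h.psd x y
  have h2 := X188.CP.minor_le q.psd x y
  have a1 := H770R3.Shim.psd_diag_re h.psd x
  have a2 := H770R3.Shim.psd_diag_re h.psd y
  have b1 := H770R3.Shim.psd_diag_re q.psd x
  have b2 := H770R3.Shim.psd_diag_re q.psd y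
  have i1 := H770R3.Shim.psd_diag_eq h.psd x
  have i2 := H770R3.Shim.psd_diag_eq h.psd y
  rw [hxy, hxx, hyy] at h2
  rw [hxx] at b1
  rw [hyy] at b2
  set a := (h.fn x x).re with ha
  set d := (h.fn y y).re with hd
  have e1 : (1 - h.fn x x).re = 1 - a := by simp [ha]
  have e2 : (1 - h.fn y y).re = 1 - d := by simp [hd]
  rw [e1] at b1 h2
  rw [e2] at b2 h2
  set p := (h.fn x y).re with hp
  set r := (h.fn x y).im with hr
  have n1 : ‖h.fn x y‖ ^ 2 = p ^ 2 + r ^ 2 := by
    rw [← Complex.normSq_eq_norm_sq, Complex.normSq_apply]; ring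
  have n2 : ‖1 - h.fn x y‖ ^ 2 = (1 - p) ^ 2 + r ^ 2 := by
    rw [← Complex.normSq_eq_norm_sq, Complex.normSq_apply]
    simp only [Complex.sub_re, Complex.one_re, Complex.sub_im, Complex.one_im]
    ring
  rw [n1] at h1
  rw [n2] at h2
  -- `p² + r² ≤ a d`, `(1-p)² + r² ≤ (1-a)(1-d)`
  have h3 : a * d ≤ ((a + d) / 2) ^ 2 := by nlinarith [sq_nonneg (a - d)]
  have h4 : (1 - a) * (1 - d) ≤ (1 - (a + d) / 2) ^ 2 := by nlinarith [sq_nonneg (a - d)]
  have h5 : |p| ≤ (a + d) / 2 := abs_le_of_sq_le_sq (by nlinarith [sq_nonneg r]) (by linarith)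
  have h6 : |1 - p| ≤ 1 - (a + d) / 2 :=
    abs_le_of_sq_le_sq (by nlinarith [sq_nonneg r]) (by linarith)
  have h7 : p = (a + d) / 2 := by
    have := le_abs_self p
    have := le_abs_self (1 - p)
    linarith
  have h8 : (a - d) ^ 2 + r ^ 2 ≤ 0 := by nlinarith
  have h9 : a - d = 0 := by nlinarith [sq_nonneg r, sq_nonneg (a - d)]
  have h10 : r = 0 := by nlinarith [sq_nonneg r, sq_nonneg (a - d)]
  have h11 : h.fn x y = (p : ℂ) := by
    apply Complex.ext
    · simp [hp]
    · rw [← hr, h10]; simp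
  refine ⟨?_, ?_, by linarith⟩
  · rw [i1, h11, h7]
    congr 1
    linarith
  · rw [i2, h11, h7]
    congr 1
    linarith

/-- **Theorem.** Let `k` be a kernel on a nonempty set `X` and `s` a complete Pick kernel with
`k = (1 - h) s` for some kernel `h`, such that for every nonempty `X' ⊆ X` the restriction of `s`
is a minimum certificate for the restriction of `k`.  Then `k` is a complete Pick kernel, and `k`
is `s` multiplied by a dyad. -/
theorem result [Nonempty X] (k s : Kernel X) (hs : IsCertificate k s)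
    (hmin : ∀ X' : Set X, X'.Nonempty → IsMinimum (restrict k X') (restrict s X')) :
    IsCP k ∧ ∃ δ : X → ℂ, ∀ x y, k.fn x y = δ x * conj (δ y) * s.fn x y := by
  obtain ⟨hsCP, h, hk⟩ := hs
  set δ : X → ℂ := fun x => ((Real.sqrt (1 - (h.fn x x).re) : ℝ) : ℂ) with hδ
  have hdy : ∀ x y, k.fn x y = δ x * conj (δ y) * s.fn x y := by
    intro x y
    by_cases hsxy : s.fn x y = 0
    · rw [hk, hsxy]; ring
    have hsxx : s.fn x x ≠ 0 := fun h0 => hsxy (H770R3.Shim.psd_zero_row s.psd h0 y)
    have hsyy : s.fn y y ≠ 0 := fun h0 => hsxy (H770R3.Shim.psd_zero_col s.psd h0 x)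
    obtain ⟨q, hq⟩ := hmin {x, y} ⟨x, by simp⟩ (restrict k {x, y})
      (isCertificate_self_of_two _ ⟨x, by simp⟩ ⟨y, by simp⟩ (by
        rintro ⟨z, hz⟩
        rcases hz with hz | hz
        · left; exact Subtype.ext hz
        · right; exact Subtype.ext hz))
    have hq' : ∀ u v : ({x, y} : Set X), s.fn u v ≠ 0 → q.fn u v = 1 - h.fn u v := by
      intro u v huv
      have h1 : k.fn u v = q.fn u v * s.fn u v := hq u v huv
      rw [hk] at h1
      exact (mul_right_cancel₀ huv h1).symm
    set x' : ({x, y} : Set X) := ⟨x, by simp⟩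
    set y' : ({x, y} : Set X) := ⟨y, by simp⟩
    obtain ⟨e1, e2, e3⟩ := two_point (h := restrict h {x, y}) (q := q) (x := x') (y := y')
      (hq' x' x' hsxx) (hq' y' y' hsyy) (hq' x' y' hsxy)
    have f1 : h.fn x x = h.fn x y := e1
    have f2 : h.fn y y = h.fn x y := e2
    have f3 : (h.fn x x).re ≤ 1 := e3
    have f4 : (h.fn y y).re = (h.fn x x).re := by rw [f1, f2]
    have f5 : h.fn x y = ((h.fn x x).re : ℂ) := by
      rw [← f1]; exact H770R3.Shim.psd_diag_eq h.psd x
    rw [hk, f5]
    simp only [hδ, Complex.conj_ofReal]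
    rw [f4, ← Complex.ofReal_mul, Real.mul_self_sqrt (by linarith)]
    push_cast
    ring
  exact ⟨X188.CP.cp_dyad hsCP δ hdy, δ, hdy⟩

end Pool.Agent.Results.MP_a92470_an.HereditaryMinimum
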